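import Pool.Agent.H33.PTH.Sts
import Pool.Agent.H36.M5.Box
import Pool.Agent.H7.SLP.H5M

/-!
# The conversions D1, D3, D5 of the path of windows
-/

set_option autoImplicit false

namespace Pool.PTH

open Finset Real MvPolynomial
open Pool.Agent.H49.Ent Pool.Agent.H32.Dense Pool.STK Pool.KA Pool.KSAT Pool.K2S Pool.PB
open Pool.SLO Pool.SLP Pool.KAF

variable {m J : ℕ}

theorem hz_diff {P : ℕ} {G G' : MvPolynomial (Fin m) ℝ} {s : Fin m →₀ ℕ} {x : ℝ}
    (h : |coeff s G - coeff s G'| ≤ x / 2 ^ P) :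
    |((hz P G s - hz P G' s : ℤ) : ℝ)| ≤ x + 1 := by
  have hP : (0 : ℝ) < 2 ^ P := by positivity
  have h1 := Int.floor_le ((2 : ℝ) ^ P * coeff s G)
  have h2 := Int.lt_floor_add_one ((2 : ℝ) ^ P * coeff s G)
  have h3 := Int.floor_le ((2 : ℝ) ^ P * coeff s G')
  have h4 := Int.lt_floor_add_one ((2 : ℝ) ^ P * coeff s G')
  have h5 : |2 ^ P * coeff s G - 2 ^ P * coeff s G'| ≤ x := by
    rw [← mul_sub, abs_mul, abs_of_pos hP]
    calc 2 ^ P * |coeff s G - coeff s G'| ≤ 2 ^ P * (x / 2 ^ P) :=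
          mul_le_mul_of_nonneg_left h hP.le
      _ = x := by field_simp
  unfold hz
  push_cast
  rw [abs_le] at h5 ⊢
  constructor <;> linarith [h5.1, h5.2]

theorem coeff_diff {P : ℕ} {G G' : MvPolynomial (Fin m) ℝ} {s : Fin m →₀ ℕ}
    (h : hz P G s = hz P G' s) : |coeff s G - coeff s G'| ≤ 1 / 2 ^ P := by
  have hP : (0 : ℝ) < 2 ^ P := by positivity
  unfold hz at h
  have h1 := Int.floor_le ((2 : ℝ) ^ P * coeff s G)
  have h2 := Int.lt_floor_add_one ((2 : ℝ) ^ P * coeff s G)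
  have h3 := Int.floor_le ((2 : ℝ) ^ P * coeff s G')
  have h4 := Int.lt_floor_add_one ((2 : ℝ) ^ P * coeff s G')
  rw [h] at h1 h2
  have h5 : |2 ^ P * coeff s G - 2 ^ P * coeff s G'| ≤ 1 := by
    rw [abs_le]
    constructor <;> linarith
  rw [← mul_sub, abs_mul, abs_of_pos hP] at h5
  rw [le_div_iff₀ hP, mul_comm]
  exact h5

theorem coeff_out {K : ℕ} {G : MvPolynomial (Fin m) ℝ} (hG : G.totalDegree ≤ K)
    {s : Fin m →₀ ℕ} (hs : s ∉ mons m K) : coeff s G = 0 := by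
  by_contra h
  exact hs (mem_mons.2 ((le_totalDegree (mem_support_iff.2 h)).trans hG))

theorem hz_out {K P : ℕ} {G : MvPolynomial (Fin m) ℝ} (hG : G.totalDegree ≤ K)
    {s : Fin m →₀ ℕ} (hs : s ∉ mons m K) : hz P G s = 0 := by
  unfold hz
  rw [coeff_out hG hs, mul_zero, Int.floor_zero]

/-- The context from its parts. -/
theorem ctx_of_parts {F : Fam m J} {i₁ : Fin m} {a w q P K : ℕ} {H : Lb F}
    (hH : ∀ s, (H s).totalDegree ≤ K) {ω ω' : F.Ω} (h1 : F.T1 w ω = F.T1 w ω')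
    (h2 : clp F i₁ a w ω = clp F i₁ a w ω') (h3 : cld F i₁ q ω = cld F i₁ q ω')
    (h4 : ∀ s ∈ mons m K, hz P (plb F i₁ a w q ω (H (slam F w ω))) s =
      hz P (plb F i₁ a w q ω' (H (slam F w ω'))) s) (h5 : F.Z ω = F.Z ω') :
    ctx F i₁ a w q P H ω = ctx F i₁ a w q P H ω' := by
  have h6 : hz P (plb F i₁ a w q ω (H (slam F w ω))) =
      hz P (plb F i₁ a w q ω' (H (slam F w ω'))) := by
    funext s
    by_cases hs : s ∈ mons m K
    · exact h4 s hs
    · rw [hz_out (totalDegree_plb ω (hH _)) hs, hz_out (totalDegree_plb ω' (hH _)) hs]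
  unfold ctx
  rw [h1, h2, h3, h5, h6]

/-- Counting with a bound on the number of values. -/
theorem ch_log {Ω S U : Type} [Fintype Ω] {p : Ω → ℝ} (hp : IsLaw p) (x : Ω → S) (w : Ω → U)
    (F : U → Finset S) {M : ℝ} (hF : ∀ ω, 0 < p ω → x ω ∈ F (w ω))
    (hM : ∀ ω, 0 < p ω → ((F (w ω)).card : ℝ) ≤ M) : CH p x w ≤ Real.log M := by
  have h0 := hp.nonneg
  refine (CH_le_card h0 hp.sum_one x w F hF).trans ?_
  refine (Ex_mono h0 (g := fun _ => Real.log M) fun ω hω => ?_).trans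
    (Ex_const hp.sum_one _).le
  have hc : 0 < (F (w ω)).card := Finset.card_pos.mpr ⟨_, hF ω hω⟩
  exact Real.log_le_log (by exact_mod_cast hc) (hM ω hω)

/-- The number of cells at the longer window. -/
theorem ch_clp {T : Type} (F : Fam m J) (i₁ : Fin m) {p : F.Ω → ℝ} (hp : IsLaw p) {a w w' q : ℕ}
    (h1 : w' ≤ w) (h2 : w ≤ J) (h3 : a ≤ q + w') (V : F.Ω → T)
    (hV : ∀ ω ω', V ω = V ω' → F.T1 w ω = F.T1 w ω' ∧ clp F i₁ a w ω = clp F i₁ a w ω' ∧
      cld F i₁ q ω = cld F i₁ q ω') : CH p (clp F i₁ a w') V ≤ Real.log (3 ^ m) := by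
  classical
  have h4 : CH p (clp F i₁ a w') V ≤ CH p (clp F i₁ a w')
      (fun ω => (F.T1 w ω, clp F i₁ a w ω, cld F i₁ q ω)) := by
    refine CH_mono_cond hp.nonneg fun ω ω' _ _ h => ?_
    obtain ⟨e1, e2, e3⟩ := hV ω ω' h
    exact Prod.ext e1 (Prod.ext e2 e3)
  refine h4.trans ?_
  choose S hS hS' using fun u : ℕ × (Fin m → ℤ) × (Fin m → ℤ) =>
    Pool.M5.Box.b2 F i₁ h1 h2 h3 u.1 u.2.1 u.2.2
  refine ch_log hp _ _ S (fun ω _ => hS' (F.T1 w ω, clp F i₁ a w ω, cld F i₁ q ω) ω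
    rfl rfl rfl) fun ω _ => ?_
  have := hS (F.T1 w ω, clp F i₁ a w ω, cld F i₁ q ω)
  exact_mod_cast this

/-- The number of cells at the shorter window. -/
theorem ch_clp' {T : Type} (F : Fam m J) (i₁ : Fin m) {p : F.Ω → ℝ} (hp : IsLaw p)
    {a w w' q : ℕ} (h1 : w' ≤ w) (h2 : w ≤ J) (h3 : a ≤ q + w') (V : F.Ω → T)
    (hV : ∀ ω ω', V ω = V ω' → F.T1 w ω = F.T1 w ω' ∧ clp F i₁ a w' ω = clp F i₁ a w' ω' ∧
      cld F i₁ q ω = cld F i₁ q ω') : CH p (clp F i₁ a w) V ≤ Real.log (3 ^ m) := by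
  classical
  have h4 : CH p (clp F i₁ a w) V ≤ CH p (clp F i₁ a w)
      (fun ω => (F.T1 w ω, clp F i₁ a w' ω, cld F i₁ q ω)) := by
    refine CH_mono_cond hp.nonneg fun ω ω' _ _ h => ?_
    obtain ⟨e1, e2, e3⟩ := hV ω ω' h
    exact Prod.ext e1 (Prod.ext e2 e3)
  refine h4.trans ?_
  choose S hS hS' using fun u : ℕ × (Fin m → ℤ) × (Fin m → ℤ) =>
    Pool.M5.Box.b2' F i₁ h1 h2 h3 u.1 u.2.1 u.2.2
  refine ch_log hp _ _ S (fun ω _ => hS' (F.T1 w ω, clp F i₁ a w' ω, cld F i₁ q ω) ω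
    rfl rfl rfl) fun ω _ => ?_
  have := hS (F.T1 w ω, clp F i₁ a w' ω, cld F i₁ q ω)
  exact_mod_cast this

/-- **D1.** -/
theorem d1_thm (m K : ℕ) : D1 m K := by
  obtain ⟨C, hC0, hC⟩ := Pool.M5.Box.b1b m K
  refine ⟨Real.log (3 ^ m) + (mons m K).card * Real.log (2 * (2 * C + 1) + 1), ?_, ?_⟩
  · have h1 : 0 ≤ Real.log ((3 : ℝ) ^ m) := Real.log_nonneg (one_le_pow₀ (by norm_num))
    have h2 : 0 ≤ Real.log (2 * (2 * C + 1) + 1) := Real.log_nonneg (by linarith)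
    positivity
  intro J F i₁ p a v w w' q e X H hp hv hw hwJ hav hX hH
  have ha : a ≤ q + w' := by omega
  have hlw : ∀ ω, lab F H v w (slam F w ω) = H (slam F v ω) := lab_slam F H (hv.trans hw) hwJ
  have hlw' : ∀ ω, lab F H v w' (slam F w' ω) = H (slam F v ω) :=
    lab_slam F H hv (hw.trans hwJ)
  refine (CH_le_add hp.nonneg _ (clp F i₁ a w') _).trans (add_le_add ?_ ?_)
  · refine ch_clp F i₁ hp hw hwJ ha _ fun ω ω' h => ?_
    obtain ⟨e1, e2, e3, -⟩ := ctx_ext h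
    exact ⟨e1, e2, e3⟩
  · refine ch_mons hp (mons m K)
      (fun ω => hz e (plb F i₁ a w' q ω (lab F H v w' (slam F w' ω)))) _ _ _ ?_ ?_
    · intro ω ω' _ _ h s _
      obtain ⟨h1, h2⟩ := Prod.ext_iff.1 h
      obtain ⟨e1, e2, e3, -, -, e6, -⟩ := ctx_ext h2
      rw [hlw, hlw] at e6
      refine hz_diff ?_
      rw [hlw', hlw']
      have hall : ∀ s, |coeff s (plb F i₁ a w q ω (H (slam F v ω))) -
          coeff s (plb F i₁ a w q ω' (H (slam F v ω')))| ≤ 1 / 2 ^ (e + X) :=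
        fun s => coeff_diff (congrFun e6 s)
      refine ((hC F i₁ a w w' q ω ω' _ _ _ _ hw hwJ ha e1 e2 h1 e3 (hH _) (hH _)
        (by positivity) (by positivity) (fun s _ => hall s) fun s _ => hall s).2 s).trans ?_
      have h3 : (2 : ℝ) ^ (K * (w - w')) ≤ 2 ^ X := pow_le_pow_right₀ (by norm_num) hX
      calc C * 2 ^ (K * (w - w')) * (1 / 2 ^ (e + X) + 1 / 2 ^ (e + X)) ≤
            C * 2 ^ X * (1 / 2 ^ (e + X) + 1 / 2 ^ (e + X)) := by
              refine mul_le_mul_of_nonneg_right ?_ (by positivity)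
              exact mul_le_mul_of_nonneg_left h3 hC0
        _ = 2 * C / 2 ^ e := by
            rw [pow_add]
            field_simp
            norm_num
    · intro ω ω' _ _ h h4
      obtain ⟨h1, h2⟩ := Prod.ext_iff.1 h
      obtain ⟨e1, e2, e3, -, -, -, -, e8⟩ := ctx_ext h2
      refine ctx_of_parts (lab_deg F hH v w') ?_ h1 e3 h4 e8
      rw [Pool.M5.Box.T1_div F hw hwJ, Pool.M5.Box.T1_div F hw hwJ, e1]

/-- The coefficients from the coarse record and the fine shape. -/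
theorem cfi_coeff {F : Fam m J} {i₁ : Fin m} {a w q K e X : ℕ} {H : Lb F}
    (hH : ∀ s, (H s).totalDegree ≤ K) {ω ω' : F.Ω}
    (h : cfi F i₁ a w q K e X H ω = cfi F i₁ a w q K e X H ω') :
    (∀ s, ¬ Pur i₁ s → |coeff s (plb F i₁ a w q ω (H (slam F w ω))) -
      coeff s (plb F i₁ a w q ω' (H (slam F w ω')))| ≤ 1 / 2 ^ (e + X)) ∧
    ∀ s, |coeff s (plb F i₁ a w q ω (H (slam F w ω))) -
      coeff s (plb F i₁ a w q ω' (H (slam F w ω')))| ≤ 1 / 2 ^ e := by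
  obtain ⟨h1, h2⟩ := Prod.ext_iff.1 h
  obtain ⟨-, -, -, -, -, e6, -⟩ := ctx_ext h1
  refine ⟨fun s hs => ?_, fun s => coeff_diff (congrFun e6 s)⟩
  by_cases hm : s ∈ mons m K
  · have h3 := congrFun h2 s
    unfold cfi fsh at h3
    simp only [if_pos (And.intro hm hs)] at h3
    exact coeff_diff h3
  · rw [coeff_out (totalDegree_plb ω (hH _)) hm, coeff_out (totalDegree_plb ω' (hH _)) hm,
      sub_self, abs_zero]
    positivity

theorem T1_of_W (F : Fam m J) (w : ℕ) {ω ω' : F.Ω} (h : F.W ω = F.W ω') :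
    F.T1 w ω = F.T1 w ω' := by
  have h1 : F.T ω = F.T ω' := (Prod.ext_iff.1 h).1
  unfold Fam.T1
  rw [h1]

theorem pow_gain {w w' n : ℕ} : ((1 : ℝ) / 2 ^ (w - w')) ^ n ≤ 1 :=
  pow_le_one₀ (by positivity) (by
    rw [div_le_one (by positivity)]
    exact one_le_pow₀ (by norm_num))

/-- **D3.** -/
theorem d3_thm (m K : ℕ) : D3 m K := by
  classical
  obtain ⟨C, hC0, hC⟩ := Pool.M5.Box.b1a m K
  refine ⟨Real.log (3 ^ m) + ((mons m K).card * Real.log (2 * (2 * C + 1) + 1) +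
    (mons m K).card * Real.log (2 * (2 * C + 1) + 1)), ?_, ?_⟩
  · have h1 : 0 ≤ Real.log ((3 : ℝ) ^ m) := Real.log_nonneg (one_le_pow₀ (by norm_num))
    have h2 : 0 ≤ Real.log (2 * (2 * C + 1) + 1) := Real.log_nonneg (by linarith)
    positivity
  intro J F i₁ p a v w w' q e X H hp hv hw hwJ hav hH
  have ha : a ≤ q + w' := by omega
  have hlw : ∀ ω, lab F H v w (slam F w ω) = H (slam F v ω) := lab_slam F H (hv.trans hw) hwJ
  have hlw' : ∀ ω, lab F H v w' (slam F w' ω) = H (slam F v ω) :=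
    lab_slam F H hv (hw.trans hwJ)
  have hcl : ∀ ω ω', (cfi F i₁ a w' q K e X (lab F H v w') ω, F.W ω) =
      (cfi F i₁ a w' q K e X (lab F H v w') ω', F.W ω') →
      F.T1 w ω = F.T1 w ω' ∧ clp F i₁ a w' ω = clp F i₁ a w' ω' ∧
        cld F i₁ q ω = cld F i₁ q ω' := by
    intro ω ω' h
    obtain ⟨h1, h2⟩ := Prod.ext_iff.1 h
    obtain ⟨h3, -⟩ := Prod.ext_iff.1 h1
    obtain ⟨-, e2, e3, -⟩ := ctx_ext h3
    exact ⟨T1_of_W F w h2, e2, e3⟩
  -- the coefficients at `w`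
  have key : ∀ ω ω', clp F i₁ a w ω = clp F i₁ a w ω' →
      (cfi F i₁ a w' q K e X (lab F H v w') ω, F.W ω) =
      (cfi F i₁ a w' q K e X (lab F H v w') ω', F.W ω') →
      (∀ s, ¬ Pur i₁ s → |coeff s (plb F i₁ a w q ω (H (slam F v ω))) -
        coeff s (plb F i₁ a w q ω' (H (slam F v ω')))| ≤ C / 2 ^ (e + X)) ∧
      ∀ s, |coeff s (plb F i₁ a w q ω (H (slam F v ω))) -
        coeff s (plb F i₁ a w q ω' (H (slam F v ω')))| ≤ 2 * C / 2 ^ e := by
    intro ω ω' hc h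
    obtain ⟨t1, t2, t3⟩ := hcl ω ω' h
    obtain ⟨h1, h2⟩ := Prod.ext_iff.1 h
    obtain ⟨c1, c2⟩ := cfi_coeff (lab_deg F hH v w') h1
    simp only [hlw'] at c1 c2
    obtain ⟨r1, r2⟩ := hC F i₁ a w w' q ω ω' _ _ (1 / 2 ^ (e + X)) (1 / 2 ^ e) hw hwJ ha t1 hc
      t2 t3 (hH _) (hH _) (by positivity) (by positivity) c1 fun s _ => c2 s
    have hp1 : (1 : ℝ) / 2 ^ (e + X) ≤ 1 / 2 ^ e := inv_mono (Nat.le_add_right e X)
    refine ⟨fun s hs => (r1 s hs).trans ?_, fun s => (r2 s).trans ?_⟩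
    · calc (1 / 2 ^ (w - w')) ^ s i₁ * (C * (1 / 2 ^ (e + X))) ≤
            1 * (C * (1 / 2 ^ (e + X))) := mul_le_mul_of_nonneg_right pow_gain (by positivity)
        _ = C / 2 ^ (e + X) := by ring
    · calc (1 / 2 ^ (w - w')) ^ s i₁ * (C * (1 / 2 ^ (e + X) + 1 / 2 ^ e)) ≤
            1 * (C * (1 / 2 ^ e + 1 / 2 ^ e)) := by
              refine mul_le_mul pow_gain ?_ (by positivity) zero_le_one
              exact mul_le_mul_of_nonneg_left (by linarith) hC0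
        _ = 2 * C / 2 ^ e := by ring
  refine (CH_le_add hp.nonneg _ (clp F i₁ a w) _).trans (add_le_add ?_ ?_)
  · exact ch_clp' F i₁ hp hw hwJ ha _ hcl
  · unfold cfi
    refine (CH_subadd hp.nonneg _ _ _).trans (add_le_add ?_ ?_)
    · refine ch_mons hp (mons m K)
        (fun ω => hz e (plb F i₁ a w q ω (lab F H v w (slam F w ω)))) _ _ _ ?_ ?_
      · intro ω ω' _ _ h s _
        obtain ⟨h1, h2⟩ := Prod.ext_iff.1 h
        refine hz_diff ?_
        rw [hlw, hlw]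
        exact (key ω ω' h1 h2).2 s
      · intro ω ω' _ _ h h4
        obtain ⟨h1, h2⟩ := Prod.ext_iff.1 h
        obtain ⟨t1, t2, t3⟩ := hcl ω ω' h2
        have h5 := Prod.ext_iff.1 (Prod.ext_iff.1 h2).2
        exact ctx_of_parts (lab_deg F hH v w) t1 h1 t3 h4 h5.2
    · refine ch_mons hp (mons m K) (fsh F i₁ a w q K (lab F H v w) (e + X)) _ _ _ ?_ ?_
      · intro ω ω' _ _ h s hs
        obtain ⟨h1, h2⟩ := Prod.ext_iff.1 h
        unfold fsh
        by_cases hpu : Pur i₁ s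
        · rw [if_neg (fun h => h.2 hpu), if_neg (fun h => h.2 hpu)]
          simp only [sub_self, Int.cast_zero, abs_zero]
          linarith
        · rw [if_pos ⟨hs, hpu⟩, if_pos ⟨hs, hpu⟩]
          refine (hz_diff (x := C) ?_).trans (by linarith)
          rw [hlw, hlw]
          exact (key ω ω' h1 h2).1 s hpu
      · intro ω ω' _ _ h h4
        funext s
        by_cases hs : s ∈ mons m K
        · exact h4 s hs
        · unfold fsh
          rw [if_neg (fun h => hs h.1), if_neg (fun h => hs h.1)]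

/-- **D5.** -/
theorem d5_thm (m K : ℕ) : D5 m K := by
  classical
  obtain ⟨C, hC0, hC⟩ := Pool.M5.Box.b1a m K
  refine ⟨K * Real.log (2 * (2 * C + 1) + 1), ?_, ?_⟩
  · have h2 : 0 ≤ Real.log (2 * (2 * C + 1) + 1) := Real.log_nonneg (by linarith)
    positivity
  intro J F i₁ p a v w w' q e X H hp hv hwX hwJ hav hH
  have hw : w' ≤ w := by omega
  have ha : a ≤ q + w' := by omega
  have hlw : ∀ ω, lab F H v w (slam F w ω) = H (slam F v ω) := lab_slam F H (hv.trans hw) hwJ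
  have hlw' : ∀ ω, lab F H v w' (slam F w' ω) = H (slam F v ω) :=
    lab_slam F H hv (hw.trans hwJ)
  have h0 := CH_le_vec hp.nonneg hp.sum_one (vfi F i₁ a w q K e X (lab F H v w))
    (fun ω => (cfi F i₁ a w' q K e X (lab F H v w') ω,
      (cfi F i₁ a w q K e X (lab F H v w) ω, F.W ω))) (fun _ => 2 * C + 1) ?_
  · rwa [Ex_const hp.sum_one] at h0
  · intro ω ω' _ _ h k
    obtain ⟨h1, h2⟩ := Prod.ext_iff.1 h
    obtain ⟨h3, h4⟩ := Prod.ext_iff.1 h2
    obtain ⟨h5, -⟩ := Prod.ext_iff.1 h3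
    obtain ⟨h6, -⟩ := Prod.ext_iff.1 h1
    obtain ⟨-, e2, e3, -⟩ := ctx_ext h6
    obtain ⟨t1, t2, -, -, -, t6, -⟩ := ctx_ext h5
    obtain ⟨c1, c2⟩ := cfi_coeff (lab_deg F hH v w') h1
    simp only [hlw'] at c1 c2
    obtain ⟨-, r2⟩ := hC F i₁ a w w' q ω ω' _ _ (1 / 2 ^ (e + X)) (1 / 2 ^ e) hw hwJ ha t1 t2
      e2 e3 (hH _) (hH _) (by positivity) (by positivity) c1 fun s _ => c2 s
    have h7 := congrFun t6 (Finsupp.single i₁ (k.val + 1))
    have h8 : vfi F i₁ a w q K e X (lab F H v w) ω k - vfi F i₁ a w q K e X (lab F H v w) ω' k =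
        hz (e + X) (plb F i₁ a w q ω (H (slam F v ω))) (Finsupp.single i₁ (k.val + 1)) -
        hz (e + X) (plb F i₁ a w q ω' (H (slam F v ω'))) (Finsupp.single i₁ (k.val + 1)) := by
      unfold vfi
      rw [h7, hlw, hlw]
      ring
    rw [h8]
    refine hz_diff ((r2 _).trans ?_)
    rw [Finsupp.single_eq_same]
    have hp1 : (1 : ℝ) / 2 ^ (e + X) ≤ 1 / 2 ^ e := inv_mono (Nat.le_add_right e X)
    have hg : ((1 : ℝ) / 2 ^ (w - w')) ^ (k.val + 1) ≤ 1 / 2 ^ X := by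
      rw [pow_succ]
      calc ((1 : ℝ) / 2 ^ (w - w')) ^ k.val * (1 / 2 ^ (w - w')) ≤ 1 * (1 / 2 ^ X) :=
            mul_le_mul pow_gain (inv_mono (by omega)) (by positivity) zero_le_one
        _ = 1 / 2 ^ X := one_mul _
    calc (1 / 2 ^ (w - w')) ^ (k.val + 1) * (C * (1 / 2 ^ (e + X) + 1 / 2 ^ e)) ≤
          1 / 2 ^ X * (C * (1 / 2 ^ e + 1 / 2 ^ e)) := by
            refine mul_le_mul hg ?_ (by positivity) (by positivity)
            exact mul_le_mul_of_nonneg_left (by linarith) hC0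
      _ = 2 * C / 2 ^ (e + X) := by
          rw [pow_add]
          field_simp
          norm_num

end Pool.PTH
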